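import Pool.Agent.Lib.MP_4b35b9_lc.Rel.Main

open Pool.Agent.Lib.MP_4b35b9_lc

/-- Above every hyperarithmetic real there is a hyperarithmetic real that is not random for any
continuous measure and such that no real of its Turing degree has a self-modulus. -/
theorem Pool.Agent.Results.MP_4b35b9_lc.NcrNoSelfModulusCofinal.result :
    ∀ Z : ℕ → Bool, Delta11 Z → ∃ X : ℕ → Bool, Delta11 X ∧ NCR X ∧
      TuringReducible (chi Z) (chi X) ∧
        ∀ Y : ℕ → Bool, TuringEquivalent (chi Y) (chi X) → ¬ HasSelfModulus Y :=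
  fun _ hZ => Rel.main hZ
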